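import Mathlib
import Pool.Agent.X238.DW.Stm

set_option autoImplicit false

namespace Pool.Agent.H329.DW

open MeasureTheory Set Filter Topology
open Pool.Agent.X238.DW

variable {c l : ℝ} {P G : ℝ → ℝ}

lemma contP (h : Ker c l P G) : Continuous P :=
  continuous_iff_continuousAt.2 fun t => (h.dP t).continuousAt

lemma contG (h : Ker c l P G) : Continuous G :=
  continuous_iff_continuousAt.2 fun t => (h.dG t).continuousAt

/-- addition formula for `P` -/
lemma addP (h : Ker c l P G) (s r : ℝ) : P (s + r) = P s * (G r + c * P r) + G s * P r := by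
  -- F r = P (q - r) (G r + c P r) + G (q - r) P r is constant, q = s + r
  set q := s + r with hq
  have hF : ∀ x : ℝ, HasDerivAt (fun x => P (q - x) * (G x + c * P x) + G (q - x) * P x) 0 x := by
    intro x
    have h1 : HasDerivAt (fun x => q - x) (-1) x := by
      simpa using (hasDerivAt_id' x).const_sub q
    have h2 : HasDerivAt (fun x => P (q - x)) (G (q - x) * (-1)) x :=
      (h.dP (q - x)).comp x h1
    have h3 : HasDerivAt (fun x => G (q - x)) ((-(c * G (q - x)) - l * P (q - x)) * (-1)) x :=
      (h.dG (q - x)).comp x h1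
    have h4 := (h2.mul ((h.dG x).add ((h.dP x).const_mul c))).add (h3.mul (h.dP x))
    refine h4.congr_deriv ?_
    simp only [Pi.add_apply]
    ring
  have hc := is_const_of_deriv_eq_zero (f := fun x => P (q - x) * (G x + c * P x) + G (q - x) * P x)
    (fun x => (hF x).differentiableAt) (fun x => (hF x).deriv) r 0
  simp only [h.P0, h.G0] at hc
  have hs : q - r = s := by rw [hq]; ring
  rw [hs] at hc
  rw [hc]; ring_nf

/-- addition formula for `G` -/
lemma addG (h : Ker c l P G) (s r : ℝ) : G (s + r) = G s * G r - l * (P s * P r) := by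
  have h1 : HasDerivAt (fun x => P (x + r)) (G (s + r)) s := by
    exact HasDerivAt.comp_add_const s r (h.dP (s + r))
  have h2 : HasDerivAt (fun x => P x * (G r + c * P r) + G x * P r)
      (G s * (G r + c * P r) + (-(c * G s) - l * P s) * P r) s :=
    ((h.dP s).mul_const _).add ((h.dG s).mul_const _)
  have h3 : (fun x => P (x + r)) = fun x => P x * (G r + c * P r) + G x * P r :=
    funext fun x => addP h x r
  rw [h3] at h1
  rw [h1.unique h2]; ring

theorem t_EXI : S_EXI := by
  intro c l P G hK hD f T0 hf hfT0
  obtain ⟨γ, C, hγ, hPG⟩ := hD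
  set T : ℝ := max T0 1 with hT
  have hT1 : 1 ≤ T := le_max_right _ _
  have hfT : ∀ t, T ≤ |t| → f t = 0 := fun t ht => hfT0 t ((le_max_left _ _).trans ht)
  have cP := contP hK
  have cG := contG hK
  have cA : Continuous fun τ : ℝ => G (-τ) * f τ := by fun_prop
  have cB : Continuous fun τ : ℝ => P (-τ) * f τ := by fun_prop
  set A : ℝ → ℝ := fun t => ∫ τ in (-T)..t, G (-τ) * f τ with hA
  set B : ℝ → ℝ := fun t => ∫ τ in (-T)..t, P (-τ) * f τ with hB
  have dA : ∀ t, HasDerivAt A (G (-t) * f t) t := fun t =>
    intervalIntegral.integral_hasDerivAt_right (cA.intervalIntegrable _ _)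
      (cA.stronglyMeasurableAtFilter _ _) cA.continuousAt
  have dB : ∀ t, HasDerivAt B (P (-t) * f t) t := fun t =>
    intervalIntegral.integral_hasDerivAt_right (cB.intervalIntegrable _ _)
      (cB.stronglyMeasurableAtFilter _ _) cB.continuousAt
  have contA : Continuous A := continuous_iff_continuousAt.2 fun t => (dA t).continuousAt
  have contB : Continuous B := continuous_iff_continuousAt.2 fun t => (dB t).continuousAt
  have hleft : ∀ t, t ≤ -T → A t = 0 ∧ B t = 0 := by
    intro t ht
    have h0 : ∀ τ ∈ Set.uIcc (-T) t, f τ = 0 := by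
      intro τ hτ
      rw [Set.uIcc_of_ge ht] at hτ
      apply hfT
      have : τ ≤ 0 := by linarith [hτ.2]
      rw [abs_of_nonpos this]; linarith [hτ.2]
    constructor
    · simp only [hA]
      rw [intervalIntegral.integral_congr (g := fun _ => (0 : ℝ))]
      · simp
      · intro τ hτ; simp only [h0 τ hτ, mul_zero]
    · simp only [hB]
      rw [intervalIntegral.integral_congr (g := fun _ => (0 : ℝ))]
      · simp
      · intro τ hτ; simp only [h0 τ hτ, mul_zero]
  have hright : ∀ t, T ≤ t → A t = A T ∧ B t = B T := by
    intro t ht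
    have h0 : ∀ τ ∈ Set.uIcc T t, f τ = 0 := by
      intro τ hτ
      rw [Set.uIcc_of_le ht] at hτ
      apply hfT
      exact hτ.1.trans (le_abs_self _)
    constructor
    · have e : A t - A T = ∫ τ in T..t, G (-τ) * f τ := by
        simp only [hA]
        rw [intervalIntegral.integral_interval_sub_left (cA.intervalIntegrable _ _)
          (cA.intervalIntegrable _ _)]
      have e2 : ∫ τ in T..t, G (-τ) * f τ = 0 := by
        rw [intervalIntegral.integral_congr (g := fun _ => (0 : ℝ))]
        · simp
        · intro τ hτ; simp only [h0 τ hτ, mul_zero]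
      linarith
    · have e : B t - B T = ∫ τ in T..t, P (-τ) * f τ := by
        simp only [hB]
        rw [intervalIntegral.integral_interval_sub_left (cB.intervalIntegrable _ _)
          (cB.intervalIntegrable _ _)]
      have e2 : ∫ τ in T..t, P (-τ) * f τ = 0 := by
        rw [intervalIntegral.integral_congr (g := fun _ => (0 : ℝ))]
        · simp
        · intro τ hτ; simp only [h0 τ hτ, mul_zero]
      linarith
  set u : ℝ → ℝ := fun t => P t * (A t + c * B t) + G t * B t with hu
  set w : ℝ → ℝ := fun t => G t * A t - l * (P t * B t) with hw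
  have cu : Continuous u := by simp only [hu]; fun_prop
  have cw : Continuous w := by simp only [hw]; fun_prop
  have du : ∀ t, HasDerivAt u (w t) t := by
    intro t
    have h1 := ((hK.dP t).mul ((dA t).add ((dB t).const_mul c))).add ((hK.dG t).mul (dB t))
    have h2 := addP hK t (-t)
    rw [add_neg_cancel, hK.P0] at h2
    refine h1.congr_deriv ?_
    simp only [hw, Pi.add_apply]
    linear_combination (-(f t)) * h2
  have dw : ∀ t, HasDerivAt w (f t - c * w t - l * u t) t := by
    intro t
    have h1 := ((hK.dG t).mul (dA t)).sub (((hK.dP t).mul (dB t)).const_mul l)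
    have h2 := addG hK t (-t)
    rw [add_neg_cancel, hK.G0] at h2
    refine h1.congr_deriv ?_
    simp only [hw, hu]
    try simp only [Pi.add_apply, Pi.mul_apply]
    linear_combination (-(f t)) * h2
  obtain ⟨M1, hM1⟩ := (isCompact_Icc (a := -T) (b := T)).exists_bound_of_continuousOn
    cu.continuousOn
  obtain ⟨M2, hM2⟩ := (isCompact_Icc (a := -T) (b := T)).exists_bound_of_continuousOn
    cw.continuousOn
  set M3 : ℝ := |C| * (|A T| + |c| * |B T|) + |C| * |B T| with hM3
  set M4 : ℝ := |C| * |A T| + |l| * (|C| * |B T|) with hM4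
  have hM3' : 0 ≤ M3 := by positivity
  have hM4' : 0 ≤ M4 := by positivity
  have bPG : ∀ t, 0 ≤ t → |P t| ≤ |C| ∧ |G t| ≤ |C| := by
    intro t ht
    have he : Real.exp (-(γ * t)) ≤ 1 := by
      rw [Real.exp_le_one_iff]; nlinarith
    have he0 := Real.exp_pos (-(γ * t))
    have hb : C * Real.exp (-(γ * t)) ≤ |C| := by
      calc C * Real.exp (-(γ * t)) ≤ |C| * Real.exp (-(γ * t)) :=
            mul_le_mul_of_nonneg_right (le_abs_self C) he0.le
        _ ≤ |C| * 1 := mul_le_mul_of_nonneg_left he (abs_nonneg C)
        _ = |C| := mul_one _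
    exact ⟨(hPG t ht).1.trans hb, (hPG t ht).2.trans hb⟩
  refine ⟨u, w, max 0 (max M1 (max M2 (max M3 M4))), du, dw, ?_, ?_⟩
  · intro t
    rcases le_or_gt t (-T) with h | h
    · obtain ⟨hA0, hB0⟩ := hleft t h
      have h1 : u t = 0 := by simp only [hu, hA0, hB0]; ring
      have h2 : w t = 0 := by simp only [hw, hA0, hB0]; ring
      rw [h1, h2]
      simp
    · rcases le_or_gt t T with h' | h'
      · have e1 := hM1 t ⟨h.le, h'⟩
        have e2 := hM2 t ⟨h.le, h'⟩
        rw [Real.norm_eq_abs] at e1 e2
        exact ⟨e1.trans (by simp), e2.trans (by simp)⟩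
      · obtain ⟨hA0, hB0⟩ := hright t h'.le
        have ht0 : 0 ≤ t := by linarith
        obtain ⟨b1, b2⟩ := bPG t ht0
        constructor
        · have e : |u t| ≤ M3 := by
            simp only [hu, hA0, hB0, hM3]
            calc |P t * (A T + c * B T) + G t * B T|
                ≤ |P t * (A T + c * B T)| + |G t * B T| := abs_add_le _ _
              _ = |P t| * |A T + c * B T| + |G t| * |B T| := by rw [abs_mul, abs_mul]
              _ ≤ |C| * (|A T| + |c| * |B T|) + |C| * |B T| := by
                  refine add_le_add (mul_le_mul b1 ?_ (abs_nonneg _) (abs_nonneg _))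
                    (mul_le_mul_of_nonneg_right b2 (abs_nonneg _))
                  exact (abs_add_le _ _).trans (by rw [abs_mul])
          exact e.trans (by simp)
        · have e : |w t| ≤ M4 := by
            simp only [hw, hA0, hB0, hM4]
            calc |G t * A T - l * (P t * B T)|
                ≤ |G t * A T| + |l * (P t * B T)| := abs_sub _ _
              _ = |G t| * |A T| + |l| * (|P t| * |B T|) := by rw [abs_mul, abs_mul, abs_mul]
              _ ≤ |C| * |A T| + |l| * (|C| * |B T|) := by
                  refine add_le_add (mul_le_mul_of_nonneg_right b2 (abs_nonneg _))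
                    (mul_le_mul_of_nonneg_left
                      (mul_le_mul_of_nonneg_right b1 (abs_nonneg _)) (abs_nonneg _))
          exact e.trans (by simp)
  · have e1 : w 0 = A 0 := by simp only [hw, hK.P0, hK.G0]; ring
    rw [e1]
    simp only [hA]
    have e2 : ∫ τ in (-T)..0, G (-τ) * f τ = ∫ s in (0 : ℝ)..T, G s * f (-s) := by
      have := intervalIntegral.integral_comp_neg (a := (0 : ℝ)) (b := T)
        (f := fun τ => G (-τ) * f τ)
      simp only [neg_neg, neg_zero] at this
      exact this.symm
    rw [e2, intervalIntegral.integral_of_le (by linarith)]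
    symm
    apply setIntegral_eq_of_subset_of_forall_sdiff_eq_zero measurableSet_Ioi
    · intro s hs; exact hs.1
    · intro s hs
      have h1 : 0 < s := hs.1
      have h2 : ¬ s ≤ T := fun h => hs.2 ⟨h1, h⟩
      have : f (-s) = 0 := hfT _ (by rw [abs_neg, abs_of_pos h1]; linarith)
      rw [this, mul_zero]

end Pool.Agent.H329.DW
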